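import Mathlib

/-!
Elementary proof of a weak lower bound for logarithmic capacity by polynomial derivatives
(helper file for the frozen statement S04361).

Outline. Let q be monic of degree k with roots w_1, ..., w_k, each repeated n + 1 times, and let A be
the set where the product of the distances to these (n + 1) k points is at most lam ^ k.
* `exists_centers`: greedy choice of n centres c_i such that at every z the k-th power of the product
  of ‖z - c_i‖ is at most 4 ^ (n k) times the product of ‖z - w_j‖ over all but k of the points.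
* `pointwise`: taking logarithms, on A the value k ‖Q z‖ ^ 2 is at most the sum over the points w_j
  with ‖z - w_j‖ ‖Q z‖ < L of L ‖Q z‖ / ‖z - w_j‖, where L = e 4 ^ n lam.
* `lintegral_main`: each of these terms has planar integral at most a constant times L ^ 2.
-/

set_option autoImplicit false

namespace Pool.Agent.LibWeakCap

open Finset MeasureTheory Real

/-- Greedy choice of centres. -/
theorem exists_centers {ι : Type*} [DecidableEq ι] (w : ι → ℂ) (k : ℕ) (hk : 0 < k) :
    ∀ (n : ℕ) (S : Finset ι), S.card = (n + 1) * k →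
      ∃ c : Fin n → ℂ, ∀ z : ℂ, ∃ T ⊆ S, T.card = k ∧
        (∏ i, ‖z - c i‖) ^ k ≤ 4 ^ (n * k) * ∏ j ∈ S \ T, ‖z - w j‖ := by
  intro n
  induction n with
  | zero =>
    intro S hS
    refine ⟨Fin.elim0, fun z => ⟨S, Finset.Subset.refl _, by simpa using hS, by simp⟩⟩
  | succ n ih =>
    intro S hS
    -- the minimal pair
    have hne : (S ×ˢ S.powersetCard k).Nonempty := by
      have h1 : k ≤ S.card := by rw [hS]; nlinarith
      have h2 : 0 < S.card := lt_of_lt_of_le hk h1
      obtain ⟨j, hj⟩ := Finset.card_pos.mp h2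
      obtain ⟨G, hG⟩ := Finset.powersetCard_nonempty.mpr h1
      exact ⟨(j, G), by simp [Finset.mem_product, hj, hG]⟩
    obtain ⟨⟨j0, G0⟩, hmem, hmin⟩ := Finset.exists_min_image (S ×ˢ S.powersetCard k)
      (fun x => x.2.sup (fun i => ‖w i - w x.1‖₊)) hne
    simp only [Finset.mem_product, Finset.mem_powersetCard] at hmem
    obtain ⟨hj0, hG0, hG0c⟩ := hmem
    set r : NNReal := G0.sup (fun i => ‖w i - w j0‖₊) with hr
    have hrG : ∀ i ∈ G0, ‖w i - w j0‖ ≤ (r : ℝ) := by
      intro i hi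
      have : ‖w i - w j0‖₊ ≤ r := Finset.le_sup (f := fun i => ‖w i - w j0‖₊) hi
      exact_mod_cast this
    have hS' : (S \ G0).card = (n + 1) * k := by
      rw [Finset.card_sdiff_of_subset hG0, hS, hG0c]
      have : (n + 1 + 1) * k = (n + 1) * k + k := by ring
      omega
    obtain ⟨c, hc⟩ := ih (S \ G0) hS'
    refine ⟨Fin.cons (w j0) c, fun z => ?_⟩
    obtain ⟨T', hT', hT'c, hT'p⟩ := hc z
    -- the union
    set V : Finset ι := T' ∪ G0 with hV
    have hdisj : Disjoint T' G0 := by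
      refine Finset.disjoint_left.mpr fun x hx hx' => ?_
      exact (Finset.mem_sdiff.mp (hT' hx)).2 hx'
    have hVc : V.card = 2 * k := by
      rw [hV, Finset.card_union_of_disjoint hdisj, hT'c, hG0c]; ring
    have hVS : V ⊆ S := Finset.union_subset (hT'.trans Finset.sdiff_subset) hG0
    -- key: a good T
    have key : ∃ T ⊆ V, T.card = k ∧ ∀ j ∈ V \ T, ‖z - w j0‖ / 4 ≤ ‖z - w j‖ := by
      by_cases hcase : 2 * (r : ℝ) ≤ ‖z - w j0‖
      · refine ⟨T', Finset.subset_union_left, hT'c, fun j hj => ?_⟩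
        have hjG : j ∈ G0 := by
          rcases Finset.mem_sdiff.mp hj with ⟨h1, h2⟩
          rcases Finset.mem_union.mp h1 with h | h
          · exact absurd h h2
          · exact h
        have h1 := hrG j hjG
        have h2 : ‖z - w j0‖ ≤ ‖z - w j‖ + ‖w j - w j0‖ := by
          have : z - w j0 = (z - w j) + (w j - w j0) := by ring
          rw [this]; exact norm_add_le _ _
        have h3 := norm_nonneg (z - w j0)
        linarith
      · push Not at hcase
        have hrpos : 0 < (r : ℝ) := by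
          have := norm_nonneg (z - w j0); linarith
        set B : Finset ι := V.filter (fun i => ‖z - w i‖ < r / 2) with hB
        have hBk : B.card < k := by
          by_contra hcon
          push Not at hcon
          obtain ⟨G, hGB, hGc⟩ := Finset.exists_subset_card_eq hcon
          have hGpos : 0 < G.card := by omega
          obtain ⟨j, hj⟩ := Finset.card_pos.mp hGpos
          have hGV : G ⊆ V := hGB.trans (Finset.filter_subset _ _)
          have hsup : G.sup (fun i => ‖w i - w j‖₊) < r := by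
            rw [Finset.sup_lt_iff (by simpa using (by exact_mod_cast hrpos : (0 : NNReal) < r))]
            intro i hi
            have hi1 : ‖z - w i‖ < r / 2 := (Finset.mem_filter.mp (hGB hi)).2
            have hj1 : ‖z - w j‖ < r / 2 := (Finset.mem_filter.mp (hGB hj)).2
            have h2 : ‖w i - w j‖ ≤ ‖z - w i‖ + ‖z - w j‖ := by
              have : w i - w j = (z - w j) - (z - w i) := by ring
              rw [this]
              have := norm_sub_le (z - w j) (z - w i)
              linarith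
            have h3 : ‖w i - w j‖ < (r : ℝ) := by linarith
            exact_mod_cast h3
          have hle := hmin (j, G) (by
            simp only [Finset.mem_product, Finset.mem_powersetCard]
            exact ⟨hVS (hGV hj), hGV.trans hVS, hGc⟩)
          exact absurd hle (not_le.mpr hsup)
        obtain ⟨T, hBT, hTV, hTc⟩ := Finset.exists_subsuperset_card_eq
          (Finset.filter_subset _ _ : B ⊆ V) hBk.le (by omega : k ≤ V.card)
        refine ⟨T, hTV, hTc, fun j hj => ?_⟩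
        rcases Finset.mem_sdiff.mp hj with ⟨h1, h2⟩
        have h3 : ¬ (‖z - w j‖ < r / 2) := fun h => h2 (hBT (Finset.mem_filter.mpr ⟨h1, h⟩))
        push Not at h3
        linarith
    obtain ⟨T, hTV, hTc, hTj⟩ := key
    refine ⟨T, hTV.trans hVS, hTc, ?_⟩
    have hsplit : S \ T = (V \ T) ∪ ((S \ G0) \ T') := by
      ext x
      simp only [Finset.mem_sdiff, Finset.mem_union, hV]
      constructor
      · rintro ⟨h1, h2⟩
        by_cases h3 : x ∈ G0
        · exact Or.inl ⟨Or.inr h3, h2⟩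
        · by_cases h4 : x ∈ T'
          · exact Or.inl ⟨Or.inl h4, h2⟩
          · exact Or.inr ⟨⟨h1, h3⟩, h4⟩
      · rintro (⟨h1, h2⟩ | ⟨⟨h1, h2⟩, h3⟩)
        · refine ⟨?_, h2⟩
          rcases h1 with h | h
          · exact (Finset.mem_sdiff.mp (hT' h)).1
          · exact hG0 h
        · refine ⟨h1, fun h => ?_⟩
          rcases Finset.mem_union.mp (hTV h) with h' | h'
          · exact h3 h'
          · exact h2 h'
    have hdisj2 : Disjoint (V \ T) ((S \ G0) \ T') := by
      refine Finset.disjoint_left.mpr fun x hx hx' => ?_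
      simp only [Finset.mem_sdiff, hV, Finset.mem_union] at hx hx'
      rcases hx.1 with h | h
      · exact hx'.2 h
      · exact hx'.1.2 h
    rw [hsplit, Finset.prod_union hdisj2]
    have hVT : (V \ T).card = k := by
      rw [Finset.card_sdiff_of_subset hTV]; omega
    have hprod : (‖z - w j0‖ / 4) ^ k ≤ ∏ j ∈ V \ T, ‖z - w j‖ := by
      calc (‖z - w j0‖ / 4) ^ k = ∏ _j ∈ V \ T, (‖z - w j0‖ / 4) := by
            rw [Finset.prod_const, hVT]
        _ ≤ ∏ j ∈ V \ T, ‖z - w j‖ :=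
            Finset.prod_le_prod (fun _ _ => by positivity) hTj
    have hfin : (∏ i : Fin (n + 1), ‖z - (Fin.cons (w j0) c : Fin (n + 1) → ℂ) i‖)
        = ‖z - w j0‖ * ∏ i, ‖z - c i‖ := by
      rw [Fin.prod_univ_succ]; simp
    rw [hfin, mul_pow]
    calc ‖z - w j0‖ ^ k * (∏ i, ‖z - c i‖) ^ k
        ≤ (4 ^ k * ∏ j ∈ V \ T, ‖z - w j‖) * (4 ^ (n * k) * ∏ j ∈ (S \ G0) \ T', ‖z - w j‖) := by
          refine mul_le_mul ?_ hT'p (by positivity) (by positivity)
          rw [div_pow] at hprod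
          rw [div_le_iff₀ (by positivity)] at hprod
          linarith
      _ = 4 ^ ((n + 1) * k) * ((∏ j ∈ V \ T, ‖z - w j‖) * ∏ j ∈ (S \ G0) \ T', ‖z - w j‖) := by
          rw [show (n + 1) * k = k + n * k by ring, pow_add]; ring

/-- Planar integral of `1/‖z - w‖` over a disc. -/
theorem lintegral_ball_inv_norm (w : ℂ) (R : ℝ) (hR : 0 ≤ R) :
    ∫⁻ z in Metric.ball w R, ENNReal.ofReal (1 / ‖z - w‖) = ENNReal.ofReal (2 * π * R) := by
  have h1 : ∫⁻ z in Metric.ball w R, ENNReal.ofReal (1 / ‖z - w‖)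
      = ∫⁻ z : ℂ, (Metric.ball (0 : ℂ) R).indicator (fun z => ENNReal.ofReal (1 / ‖z‖)) z := by
    rw [← lintegral_indicator measurableSet_ball]
    rw [← lintegral_sub_right_eq_self
      (fun z => (Metric.ball (0 : ℂ) R).indicator (fun z => ENNReal.ofReal (1 / ‖z‖)) z) w]
    refine lintegral_congr fun z => ?_
    by_cases hz : ‖z - w‖ < R
    · rw [Set.indicator_of_mem (by simpa [Metric.mem_ball, dist_eq_norm] using hz),
        Set.indicator_of_mem (by simpa [Metric.mem_ball, dist_eq_norm] using hz)]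
    · rw [Set.indicator_of_notMem (by simpa [Metric.mem_ball, dist_eq_norm] using hz),
        Set.indicator_of_notMem (by simpa [Metric.mem_ball, dist_eq_norm] using hz)]
  rw [h1, ← Complex.lintegral_comp_polarCoord_symm]
  have h2 : ∀ p ∈ polarCoord.target, ENNReal.ofReal p.1 •
      (Metric.ball (0 : ℂ) R).indicator (fun z => ENNReal.ofReal (1 / ‖z‖))
        (Complex.polarCoord.symm p) = (Set.Iio R ×ˢ (Set.univ : Set ℝ)).indicator 1 p := by
    intro p hp
    have hp1 : 0 < p.1 := by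
      rw [polarCoord_target] at hp
      exact hp.1
    have hn : ‖Complex.polarCoord.symm p‖ = p.1 := by
      rw [Complex.norm_polarCoord_symm, abs_of_pos hp1]
    by_cases hpR : p.1 < R
    · rw [Set.indicator_of_mem (by simpa [Metric.mem_ball, dist_eq_norm, hn, -Complex.polarCoord_symm_apply] using hpR),
        Set.indicator_of_mem (by simpa using hpR)]
      rw [hn, smul_eq_mul, ← ENNReal.ofReal_mul hp1.le]
      rw [mul_one_div_cancel hp1.ne']
      simp
    · rw [Set.indicator_of_notMem (by simpa [Metric.mem_ball, dist_eq_norm, hn, -Complex.polarCoord_symm_apply] using hpR),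
        Set.indicator_of_notMem (by simpa using hpR)]
      simp
  rw [setLIntegral_congr_fun polarCoord.open_target.measurableSet h2]
  rw [lintegral_indicator_one (measurableSet_Iio.prod MeasurableSet.univ)]
  rw [Measure.restrict_apply (measurableSet_Iio.prod MeasurableSet.univ)]
  rw [polarCoord_target, Set.prod_inter_prod, Measure.volume_eq_prod, Measure.prod_prod]
  rw [Set.inter_comm, Set.Ioi_inter_Iio, Set.univ_inter, Real.volume_Ioo, Real.volume_Ioo,
    ← ENNReal.ofReal_mul (by linarith)]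
  congr 1; ring

/-- the near part -/
theorem lintegral_near (n : ℕ) (c : Fin n → ℂ) (w : ℂ) (L : ℝ) (hL : 0 < L) (i : Fin n) :
    ∫⁻ z in {z : ℂ | ‖z - w‖ * ∏ i, ‖z - c i‖ < L} ∩ Metric.closedBall (c i) (‖c i - w‖ / 2),
      ENNReal.ofReal ((∏ i, ‖z - c i‖) / ‖z - w‖) ≤ ENNReal.ofReal (π * L) := by
  set a : ℝ := ‖c i - w‖ with ha
  have hmeas : MeasurableSet ({z : ℂ | ‖z - w‖ * ∏ i, ‖z - c i‖ < L} ∩
      Metric.closedBall (c i) (a / 2)) := by
    refine MeasurableSet.inter ?_ measurableSet_closedBall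
    exact (isOpen_lt (by fun_prop) continuous_const).measurableSet
  rcases (norm_nonneg (c i - w)).eq_or_lt with h0 | hpos
  · have ha0 : a = 0 := by rw [ha, ← h0]
    have hz : volume ({z : ℂ | ‖z - w‖ * ∏ i, ‖z - c i‖ < L} ∩
        Metric.closedBall (c i) (a / 2)) = 0 := by
      refine measure_mono_null Set.inter_subset_right ?_
      rw [ha0]; simp
    rw [setLIntegral_measure_zero _ _ hz]
    exact zero_le
  · have hb : ∀ z ∈ {z : ℂ | ‖z - w‖ * ∏ i, ‖z - c i‖ < L} ∩ Metric.closedBall (c i) (a / 2),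
        ENNReal.ofReal ((∏ i, ‖z - c i‖) / ‖z - w‖) ≤ ENNReal.ofReal (4 * L / a ^ 2) := by
      rintro z ⟨hz1, hz2⟩
      simp only [Set.mem_ofPred_eq] at hz1
      rw [Metric.mem_closedBall, dist_eq_norm] at hz2
      have h1 : a / 2 ≤ ‖z - w‖ := by
        have : ‖c i - w‖ ≤ ‖z - w‖ + ‖z - c i‖ := by
          have e : c i - w = (z - w) - (z - c i) := by ring
          rw [e]; exact norm_sub_le _ _
        rw [← ha] at this
        linarith
      have hzw : 0 < ‖z - w‖ := lt_of_lt_of_le (by positivity) h1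
      apply ENNReal.ofReal_le_ofReal
      rw [div_le_div_iff₀ hzw (by positivity)]
      have h2 : a ^ 2 ≤ 4 * ‖z - w‖ ^ 2 := by nlinarith [hpos.le]
      have h3 : 0 ≤ ∏ i, ‖z - c i‖ := Finset.prod_nonneg fun _ _ => norm_nonneg _
      calc (∏ i, ‖z - c i‖) * a ^ 2 ≤ (∏ i, ‖z - c i‖) * (4 * ‖z - w‖ ^ 2) :=
            mul_le_mul_of_nonneg_left h2 h3
        _ = 4 * (‖z - w‖ * ∏ i, ‖z - c i‖) * ‖z - w‖ := by ring
        _ ≤ 4 * L * ‖z - w‖ := by
            have := hz1.le
            nlinarith [hzw]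
    calc ∫⁻ z in {z : ℂ | ‖z - w‖ * ∏ i, ‖z - c i‖ < L} ∩ Metric.closedBall (c i) (a / 2),
          ENNReal.ofReal ((∏ i, ‖z - c i‖) / ‖z - w‖)
        ≤ ∫⁻ z in {z : ℂ | ‖z - w‖ * ∏ i, ‖z - c i‖ < L} ∩ Metric.closedBall (c i) (a / 2),
          ENNReal.ofReal (4 * L / a ^ 2) := setLIntegral_mono' hmeas hb
      _ = ENNReal.ofReal (4 * L / a ^ 2) * volume ({z : ℂ | ‖z - w‖ * ∏ i, ‖z - c i‖ < L} ∩ Metric.closedBall (c i) (a / 2)) := by
          rw [setLIntegral_const]
      _ ≤ ENNReal.ofReal (4 * L / a ^ 2) * volume (Metric.closedBall (c i) (a / 2)) := by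
          gcongr; exact Set.inter_subset_right
      _ = ENNReal.ofReal (π * L) := by
          rw [Complex.volume_closedBall]
          rw [← ENNReal.ofReal_pow (by positivity)]
          have : (NNReal.pi : ENNReal) = ENNReal.ofReal π := by
            rw [← NNReal.coe_real_pi, ENNReal.ofReal_coe_nnreal]
          rw [this, ← ENNReal.ofReal_mul (by positivity), ← ENNReal.ofReal_mul (by positivity)]
          congr 1
          have ha0 : a ≠ 0 := hpos.ne'
          field_simp
          ring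

/-- far part -/
theorem lintegral_far (n : ℕ) (c : Fin n → ℂ) (w : ℂ) (L : ℝ) (hL : 0 < L) :
    ∫⁻ z in {z : ℂ | ‖z - w‖ * ∏ i, ‖z - c i‖ < L} \ ⋃ i, Metric.closedBall (c i) (‖c i - w‖ / 2),
      ENNReal.ofReal ((∏ i, ‖z - c i‖) / ‖z - w‖) ≤ ENNReal.ofReal (2 * π * 6 ^ n * L) := by
  -- the radial comparison function
  set F : ℝ → ℝ := fun y => ∏ i, max y ‖c i - w‖ with hF
  have hFc : Continuous fun y => y * F y := by
    simp only [hF]; fun_prop
  have hFmono : ∀ x y : ℝ, 0 ≤ x → x ≤ y → F x ≤ F y := by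
    intro x y hx hxy
    refine Finset.prod_le_prod (fun i _ => le_max_of_le_left hx) fun i _ => max_le_max_right _ hxy
  have hFnn : ∀ x : ℝ, 0 ≤ F x := fun x =>
    Finset.prod_nonneg fun i _ => le_max_of_le_right (norm_nonneg _)
  have hFpow : ∀ y : ℝ, 0 ≤ y → y ^ n ≤ F y := by
    intro y hy
    calc y ^ n = ∏ _i : Fin n, y := by simp
      _ ≤ F y := Finset.prod_le_prod (fun _ _ => hy) fun i _ => le_max_left _ _
  obtain ⟨y0, hy0, hy0F⟩ : ∃ y0 : ℝ, 0 < y0 ∧ y0 * F y0 = 3 ^ n * L := by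
    set M : ℝ := 1 + 3 ^ n * L with hM
    have hM1 : 1 ≤ M := by rw [hM]; have : 0 ≤ 3 ^ n * L := by positivity
                           linarith
    have hMF : 3 ^ n * L ≤ M * F M := by
      have h1 : (1 : ℝ) ≤ F M := le_trans (one_le_pow₀ hM1) (hFpow M (by linarith))
      have : M * 1 ≤ M * F M := mul_le_mul_of_nonneg_left h1 (by linarith)
      linarith
    have := intermediate_value_Icc (show (0 : ℝ) ≤ M by linarith) hFc.continuousOn
    obtain ⟨y, hy, hyF⟩ := this (show 3 ^ n * L ∈ Set.Icc (0 * F 0) (M * F M) from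
      ⟨by rw [zero_mul]; positivity, hMF⟩)
    refine ⟨y, ?_, hyF⟩
    rcases hy.1.eq_or_lt with h | h
    · exfalso
      simp only at hyF
      rw [← h, zero_mul] at hyF
      have : 0 < 3 ^ n * L := by positivity
      linarith
    · exact h
  have hmeas : MeasurableSet ({z : ℂ | ‖z - w‖ * ∏ i, ‖z - c i‖ < L} \
      ⋃ i, Metric.closedBall (c i) (‖c i - w‖ / 2)) := by
    refine MeasurableSet.diff ?_ (MeasurableSet.iUnion fun i => measurableSet_closedBall)
    exact (isOpen_lt (by fun_prop) continuous_const).measurableSet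
  have hkey : ∀ z ∈ {z : ℂ | ‖z - w‖ * ∏ i, ‖z - c i‖ < L} \
      ⋃ i, Metric.closedBall (c i) (‖c i - w‖ / 2),
      ‖z - w‖ < y0 ∧ (∏ i, ‖z - c i‖) ≤ 6 ^ n * L / y0 := by
    rintro z ⟨hz1, hz2⟩
    simp only [Set.mem_ofPred_eq] at hz1
    simp only [Set.mem_iUnion, Metric.mem_closedBall, dist_eq_norm, not_exists, not_le] at hz2
    have h1 : F ‖z - w‖ ≤ 3 ^ n * ∏ i, ‖z - c i‖ := by
      calc F ‖z - w‖ = ∏ i, max ‖z - w‖ ‖c i - w‖ := rfl
        _ ≤ ∏ i, (3 * ‖z - c i‖) := by
            refine Finset.prod_le_prod (fun i _ => le_max_of_le_left (norm_nonneg _)) fun i _ => ?_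
            have h2 := hz2 i
            have h3 : ‖z - w‖ ≤ ‖z - c i‖ + ‖c i - w‖ := by
              have e : z - w = (z - c i) + (c i - w) := by ring
              rw [e]; exact norm_add_le _ _
            refine max_le (by linarith) (by linarith [norm_nonneg (z - c i)])
        _ = 3 ^ n * ∏ i, ‖z - c i‖ := by
            rw [Finset.prod_mul_distrib]; simp
    have h4 : ‖z - w‖ * F ‖z - w‖ < 3 ^ n * L := by
      calc ‖z - w‖ * F ‖z - w‖ ≤ ‖z - w‖ * (3 ^ n * ∏ i, ‖z - c i‖) :=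
            mul_le_mul_of_nonneg_left h1 (norm_nonneg _)
        _ = 3 ^ n * (‖z - w‖ * ∏ i, ‖z - c i‖) := by ring
        _ < 3 ^ n * L := by
            apply mul_lt_mul_of_pos_left hz1 (by positivity)
    have h5 : ‖z - w‖ < y0 := by
      by_contra hcon
      push Not at hcon
      have := hFmono y0 ‖z - w‖ hy0.le hcon
      have h6 : y0 * F y0 ≤ ‖z - w‖ * F ‖z - w‖ :=
        mul_le_mul hcon this (hFnn _) (norm_nonneg _)
      rw [hy0F] at h6
      linarith
    refine ⟨h5, ?_⟩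
    rw [le_div_iff₀ hy0]
    have h7 : ∏ i, ‖z - c i‖ ≤ 2 ^ n * F y0 := by
      calc ∏ i, ‖z - c i‖ ≤ ∏ i, (2 * max y0 ‖c i - w‖) := by
            refine Finset.prod_le_prod (fun i _ => norm_nonneg _) fun i _ => ?_
            have h3 : ‖z - c i‖ ≤ ‖z - w‖ + ‖c i - w‖ := by
              have e : z - c i = (z - w) - (c i - w) := by ring
              rw [e]; exact norm_sub_le _ _
            have h8 := le_max_left y0 ‖c i - w‖
            have h9 := le_max_right y0 ‖c i - w‖
            linarith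
        _ = 2 ^ n * F y0 := by
            rw [Finset.prod_mul_distrib]; simp [hF]
    calc (∏ i, ‖z - c i‖) * y0 ≤ (2 ^ n * F y0) * y0 := mul_le_mul_of_nonneg_right h7 hy0.le
      _ = 2 ^ n * (y0 * F y0) := by ring
      _ = 6 ^ n * L := by rw [hy0F, show (6 : ℝ) = 2 * 3 by norm_num, mul_pow]; ring
  calc ∫⁻ z in {z : ℂ | ‖z - w‖ * ∏ i, ‖z - c i‖ < L} \
        ⋃ i, Metric.closedBall (c i) (‖c i - w‖ / 2),
        ENNReal.ofReal ((∏ i, ‖z - c i‖) / ‖z - w‖)
      ≤ ∫⁻ z in {z : ℂ | ‖z - w‖ * ∏ i, ‖z - c i‖ < L} \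
        ⋃ i, Metric.closedBall (c i) (‖c i - w‖ / 2),
        ENNReal.ofReal (6 ^ n * L / y0) * ENNReal.ofReal (1 / ‖z - w‖) := by
        refine setLIntegral_mono' hmeas fun z hz => ?_
        rw [← ENNReal.ofReal_mul (by positivity)]
        apply ENNReal.ofReal_le_ofReal
        rw [mul_one_div]
        exact div_le_div_of_nonneg_right (hkey z hz).2 (norm_nonneg _)
    _ ≤ ∫⁻ z in Metric.ball w y0,
        ENNReal.ofReal (6 ^ n * L / y0) * ENNReal.ofReal (1 / ‖z - w‖) := by
        refine lintegral_mono_set fun z hz => ?_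
        rw [Metric.mem_ball, dist_eq_norm]
        exact (hkey z hz).1
    _ = ENNReal.ofReal (6 ^ n * L / y0) * ENNReal.ofReal (2 * π * y0) := by
        rw [lintegral_const_mul' _ _ ENNReal.ofReal_ne_top, lintegral_ball_inv_norm w y0 hy0.le]
    _ = ENNReal.ofReal (2 * π * 6 ^ n * L) := by
        rw [← ENNReal.ofReal_mul (by positivity)]
        congr 1
        field_simp

theorem lintegral_main (n : ℕ) (c : Fin n → ℂ) (w : ℂ) (L : ℝ) (hL : 0 < L) :
    ∫⁻ z in {z : ℂ | ‖z - w‖ * ∏ i, ‖z - c i‖ < L},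
      ENNReal.ofReal ((∏ i, ‖z - c i‖) / ‖z - w‖)
      ≤ ENNReal.ofReal ((n * π + 2 * π * 6 ^ n) * L) := by
  have hsub : {z : ℂ | ‖z - w‖ * ∏ i, ‖z - c i‖ < L} ⊆
      (⋃ i, ({z : ℂ | ‖z - w‖ * ∏ i, ‖z - c i‖ < L} ∩ Metric.closedBall (c i) (‖c i - w‖ / 2))) ∪
      ({z : ℂ | ‖z - w‖ * ∏ i, ‖z - c i‖ < L} \
        ⋃ i, Metric.closedBall (c i) (‖c i - w‖ / 2)) := by
    intro z hz
    by_cases h : z ∈ ⋃ i, Metric.closedBall (c i) (‖c i - w‖ / 2)
    · left
      obtain ⟨i, hi⟩ := Set.mem_iUnion.mp h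
      exact Set.mem_iUnion.mpr ⟨i, hz, hi⟩
    · right; exact ⟨hz, h⟩
  calc ∫⁻ z in {z : ℂ | ‖z - w‖ * ∏ i, ‖z - c i‖ < L},
      ENNReal.ofReal ((∏ i, ‖z - c i‖) / ‖z - w‖)
      ≤ ∫⁻ z in (⋃ i, ({z : ℂ | ‖z - w‖ * ∏ i, ‖z - c i‖ < L} ∩
            Metric.closedBall (c i) (‖c i - w‖ / 2))) ∪
      ({z : ℂ | ‖z - w‖ * ∏ i, ‖z - c i‖ < L} \
        ⋃ i, Metric.closedBall (c i) (‖c i - w‖ / 2)),
        ENNReal.ofReal ((∏ i, ‖z - c i‖) / ‖z - w‖) := lintegral_mono_set hsub
    _ ≤ _ := lintegral_union_le _ _ _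
    _ ≤ ENNReal.ofReal (n * (π * L)) + ENNReal.ofReal (2 * π * 6 ^ n * L) := by
        refine add_le_add ?_ (lintegral_far n c w L hL)
        refine (lintegral_iUnion_le _ _).trans ?_
        rw [tsum_fintype]
        calc _ ≤ ∑ _i : Fin n, ENNReal.ofReal (π * L) :=
              Finset.sum_le_sum fun i _ => lintegral_near n c w L hL i
          _ = ENNReal.ofReal (n * (π * L)) := by
              rw [Finset.sum_const, Finset.card_univ, Fintype.card_fin, nsmul_eq_mul,
                ENNReal.ofReal_mul (p := (n : ℝ)) (by positivity), ENNReal.ofReal_natCast]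
    _ = ENNReal.ofReal ((n * π + 2 * π * 6 ^ n) * L) := by
        rw [← ENNReal.ofReal_add (by positivity) (by positivity)]
        congr 1; ring

/-- pointwise inequality -/
theorem pointwise {ι : Type*} [DecidableEq ι] (S T : Finset ι) (hT : T ⊆ S) (x : ι → ℝ)
    (n k : ℕ) (hTk : T.card = k) (lam q : ℝ) (hlam : 0 < lam) (hq : 0 ≤ q)
    (hx : ∀ j ∈ S, 0 < x j)
    (h1 : q ^ k ≤ 4 ^ (n * k) * ∏ j ∈ S \ T, x j) (h2 : ∏ j ∈ S, x j ≤ lam ^ k) :
    (k : ℝ) * q ^ 2 ≤ ∑ j ∈ S, (if x j * q < exp 1 * 4 ^ n * lam then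
      (exp 1 * 4 ^ n * lam) * (q / x j) else 0) := by
  set L : ℝ := exp 1 * 4 ^ n * lam with hL
  have hLpos : 0 < L := by positivity
  rcases hq.eq_or_lt with h0 | hqpos
  · rw [← h0]
    simp
  set ρ : ℝ := L / q with hρ
  have hρpos : 0 < ρ := by positivity
  have hprodpos : 0 < ∏ j ∈ S, x j := Finset.prod_pos hx
  have h3 : (exp 1 * lam) ^ k ≤ ∏ j ∈ S, max (x j) ρ := by
    have e1 : ∏ j ∈ S, max (x j) ρ = (∏ j ∈ T, max (x j) ρ) * ∏ j ∈ S \ T, max (x j) ρ := by
      rw [mul_comm, Finset.prod_sdiff hT]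
    have e2 : ρ ^ k ≤ ∏ j ∈ T, max (x j) ρ := by
      calc ρ ^ k = ∏ _j ∈ T, ρ := by rw [Finset.prod_const, hTk]
        _ ≤ _ := Finset.prod_le_prod (fun _ _ => hρpos.le) fun _ _ => le_max_right _ _
    have e3 : ∏ j ∈ S \ T, x j ≤ ∏ j ∈ S \ T, max (x j) ρ :=
      Finset.prod_le_prod (fun j hj => (hx j (Finset.mem_sdiff.mp hj).1).le)
        fun _ _ => le_max_left _ _
    have e4 : q ^ k / 4 ^ (n * k) ≤ ∏ j ∈ S \ T, x j := by
      rw [div_le_iff₀ (by positivity)]; linarith
    calc (exp 1 * lam) ^ k = ρ ^ k * (q ^ k / 4 ^ (n * k)) := by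
          rw [pow_mul, ← div_pow, ← mul_pow]
          congr 1
          rw [hρ, hL]
          field_simp
      _ ≤ (∏ j ∈ T, max (x j) ρ) * ∏ j ∈ S \ T, max (x j) ρ := by
          refine mul_le_mul e2 (e4.trans e3) (by positivity) ?_
          exact Finset.prod_nonneg fun j _ => le_max_of_le_right hρpos.le
      _ = _ := e1.symm
  have h4 : exp 1 ^ k ≤ ∏ j ∈ S, max 1 (ρ / x j) := by
    have e1 : ∏ j ∈ S, max (x j) ρ = (∏ j ∈ S, max 1 (ρ / x j)) * ∏ j ∈ S, x j := by
      rw [← Finset.prod_mul_distrib]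
      refine Finset.prod_congr rfl fun j hj => ?_
      have := hx j hj
      rw [max_mul_of_nonneg _ _ this.le, one_mul, div_mul_cancel₀ _ this.ne']
    rw [e1, mul_pow] at h3
    have h5 : exp 1 ^ k * ∏ j ∈ S, x j ≤ (∏ j ∈ S, max 1 (ρ / x j)) * ∏ j ∈ S, x j := by
      refine le_trans ?_ h3
      exact mul_le_mul_of_nonneg_left h2 (by positivity)
    exact le_of_mul_le_mul_right h5 hprodpos
  have h5 : (k : ℝ) ≤ ∑ j ∈ S, log (max 1 (ρ / x j)) := by
    have hy : ∀ j ∈ S, max 1 (ρ / x j) ≠ 0 := fun j _ => by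
      have : (1 : ℝ) ≤ max 1 (ρ / x j) := le_max_left _ _
      linarith
    rw [← Real.log_prod hy]
    have : (k : ℝ) = log (exp 1 ^ k) := by
      rw [Real.log_pow, Real.log_exp, mul_one]
    rw [this]
    exact Real.log_le_log (by positivity) h4
  have h6 : ∀ j ∈ S, q ^ 2 * log (max 1 (ρ / x j)) ≤
      (if x j * q < L then L * (q / x j) else 0) := by
    intro j hj
    have hxj := hx j hj
    split_ifs with hcase
    · have h7 : 1 < ρ / x j := by
        rw [lt_div_iff₀ hxj, one_mul, hρ, lt_div_iff₀ hqpos]; exact hcase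
      rw [max_eq_right h7.le]
      have h8 : log (ρ / x j) ≤ ρ / x j := by
        have := Real.log_le_sub_one_of_pos (lt_trans one_pos h7)
        linarith
      calc q ^ 2 * log (ρ / x j) ≤ q ^ 2 * (ρ / x j) :=
            mul_le_mul_of_nonneg_left h8 (by positivity)
        _ = L * (q / x j) := by
            rw [hρ]; field_simp
    · have h7 : ρ / x j ≤ 1 := by
        rw [div_le_iff₀ hxj, one_mul, hρ, div_le_iff₀ hqpos]; exact not_lt.mp hcase
      rw [max_eq_left h7]; simp
  calc (k : ℝ) * q ^ 2 ≤ (∑ j ∈ S, log (max 1 (ρ / x j))) * q ^ 2 :=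
        mul_le_mul_of_nonneg_right h5 (by positivity)
    _ = ∑ j ∈ S, q ^ 2 * log (max 1 (ρ / x j)) := by
        rw [mul_comm, Finset.mul_sum]
    _ ≤ _ := Finset.sum_le_sum h6

/-- the constant -/
noncomputable def Cst (n : ℕ) : ℝ := (n + 1) * ((n * π + 2 * π * 6 ^ n) * (exp 1 * 4 ^ n) ^ 2)

theorem core {ι : Type*} [DecidableEq ι] (w : ι → ℂ) (S : Finset ι) (n k : ℕ) (hk : 0 < k)
    (hS : S.card = (n + 1) * k) (lam : ℝ) (hlam : 0 < lam) :
    ∃ c : Fin n → ℂ, ∫⁻ z in {z : ℂ | ∏ j ∈ S, ‖z - w j‖ ≤ lam ^ k},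
      ENNReal.ofReal ((∏ i, ‖z - c i‖) ^ 2) ≤ ENNReal.ofReal (Cst n * lam ^ 2) := by
  obtain ⟨c, hc⟩ := exists_centers w k hk n S hS
  refine ⟨c, ?_⟩
  set L : ℝ := exp 1 * 4 ^ n * lam with hL
  have hLpos : 0 < L := by positivity
  set A : Set ℂ := {z : ℂ | ∏ j ∈ S, ‖z - w j‖ ≤ lam ^ k} with hA
  have hAm : MeasurableSet A := (isClosed_le (by fun_prop) continuous_const).measurableSet
  set B : ι → Set ℂ := fun j => {z : ℂ | ‖z - w j‖ * ∏ i, ‖z - c i‖ < L} with hB
  have hBm : ∀ j, MeasurableSet (B j) := fun j =>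
    (isOpen_lt (by fun_prop) continuous_const).measurableSet
  have hae : ∀ᵐ z ∂(volume.restrict A), (k : ENNReal) * ENNReal.ofReal ((∏ i, ‖z - c i‖) ^ 2) ≤
      ∑ j ∈ S, (B j).indicator
        (fun z => ENNReal.ofReal L * ENNReal.ofReal ((∏ i, ‖z - c i‖) / ‖z - w j‖)) z := by
    rw [ae_restrict_iff' hAm]
    have hnull : volume (S.image w : Set ℂ) = 0 := (S.image w).finite_toSet.measure_zero _
    filter_upwards [measure_eq_zero_iff_ae_notMem.mp hnull] with z hz hzA
    have hx : ∀ j ∈ S, 0 < ‖z - w j‖ := by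
      intro j hj
      rw [norm_pos_iff, sub_ne_zero]
      rintro rfl
      exact hz (by simpa using ⟨j, hj, rfl⟩)
    obtain ⟨T, hT, hTk, hTp⟩ := hc z
    have hmain := pointwise S T hT (fun j => ‖z - w j‖) n k hTk lam (∏ i, ‖z - c i‖) hlam
      (Finset.prod_nonneg fun _ _ => norm_nonneg _) hx hTp hzA
    have e1 : (k : ENNReal) * ENNReal.ofReal ((∏ i, ‖z - c i‖) ^ 2)
        = ENNReal.ofReal ((k : ℝ) * (∏ i, ‖z - c i‖) ^ 2) := by
      rw [ENNReal.ofReal_mul (p := (k : ℝ)) (by positivity), ENNReal.ofReal_natCast]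
    rw [e1]
    refine (ENNReal.ofReal_le_ofReal hmain).trans ?_
    rw [ENNReal.ofReal_sum_of_nonneg]
    · refine Finset.sum_le_sum fun j hj => ?_
      split_ifs with hcase
      · rw [Set.indicator_of_mem (by exact hcase), ENNReal.ofReal_mul (by positivity)]
      · simp
    · intro j hj
      split_ifs <;> positivity
  have hint : (k : ENNReal) * ∫⁻ z in A, ENNReal.ofReal ((∏ i, ‖z - c i‖) ^ 2) ≤
      k * ENNReal.ofReal (Cst n * lam ^ 2) := by
    calc (k : ENNReal) * ∫⁻ z in A, ENNReal.ofReal ((∏ i, ‖z - c i‖) ^ 2)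
        = ∫⁻ z in A, (k : ENNReal) * ENNReal.ofReal ((∏ i, ‖z - c i‖) ^ 2) := by
          rw [lintegral_const_mul' _ _ (by simp)]
      _ ≤ ∫⁻ z in A, ∑ j ∈ S, (B j).indicator
        (fun z => ENNReal.ofReal L * ENNReal.ofReal ((∏ i, ‖z - c i‖) / ‖z - w j‖)) z :=
          lintegral_mono_ae hae
      _ ≤ ∫⁻ z, ∑ j ∈ S, (B j).indicator
        (fun z => ENNReal.ofReal L * ENNReal.ofReal ((∏ i, ‖z - c i‖) / ‖z - w j‖)) z :=
          setLIntegral_le_lintegral _ _
      _ = ∑ j ∈ S, ∫⁻ z, (B j).indicator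
        (fun z => ENNReal.ofReal L * ENNReal.ofReal ((∏ i, ‖z - c i‖) / ‖z - w j‖)) z := by
          rw [lintegral_finsetSum]
          intro j _
          refine Measurable.indicator ?_ (hBm j)
          fun_prop
      _ = ∑ j ∈ S, ENNReal.ofReal L * ∫⁻ z in B j,
            ENNReal.ofReal ((∏ i, ‖z - c i‖) / ‖z - w j‖) := by
          refine Finset.sum_congr rfl fun j _ => ?_
          rw [lintegral_indicator (hBm j), lintegral_const_mul' _ _ ENNReal.ofReal_ne_top]
      _ ≤ ∑ _j ∈ S, ENNReal.ofReal L * ENNReal.ofReal ((n * π + 2 * π * 6 ^ n) * L) := by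
          refine Finset.sum_le_sum fun j _ => ?_
          gcongr
          exact lintegral_main n c (w j) L hLpos
      _ = k * ENNReal.ofReal (Cst n * lam ^ 2) := by
          rw [Finset.sum_const, hS, nsmul_eq_mul, ← ENNReal.ofReal_mul hLpos.le]
          rw [← ENNReal.ofReal_natCast, ← ENNReal.ofReal_natCast (n := k),
            ← ENNReal.ofReal_mul (by positivity), ← ENNReal.ofReal_mul (by positivity)]
          congr 1
          rw [hL, Cst]
          push_cast
          ring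
  have hk0 : (k : ENNReal) ≠ 0 := by exact_mod_cast hk.ne'
  have hkt : (k : ENNReal) ≠ ⊤ := by simp
  exact (ENNReal.mul_le_mul_iff_right hk0 hkt).mp hint

theorem Cst_pos (n : ℕ) : 0 < Cst n := by
  unfold Cst; positivity

/-- a monic polynomial with prescribed derivative -/
theorem exists_antideriv (n : ℕ) (Q : Polynomial ℂ) (hQ : Q.Monic) (hd : Q.natDegree = n) :
    ∃ p : Polynomial ℂ, p.Monic ∧ p.natDegree = n + 1 ∧
      Polynomial.derivative p = Polynomial.C ((n : ℂ) + 1) * Q := by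
  set p : Polynomial ℂ := ∑ j ∈ range (n + 1),
    Polynomial.monomial (j + 1) (((n : ℂ) + 1) * Q.coeff j / (j + 1)) with hp
  have hcoeff : ∀ i, p.coeff (i + 1) = ((n : ℂ) + 1) * Q.coeff i / (i + 1) := by
    intro i
    rw [hp, Polynomial.finsetSum_coeff]
    by_cases hi : i ∈ range (n + 1)
    · rw [Finset.sum_eq_single i]
      · simp
      · intro b _ hb
        rw [Polynomial.coeff_monomial, if_neg (by omega)]
      · intro h; exact absurd hi h
    · have h0 : Q.coeff i = 0 := by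
        apply Polynomial.coeff_eq_zero_of_natDegree_lt
        rw [hd]; simp at hi; omega
      rw [h0, mul_zero, zero_div]
      refine Finset.sum_eq_zero fun b hb => ?_
      rw [Polynomial.coeff_monomial, if_neg]
      rintro h
      have : b = i := by omega
      exact hi (this ▸ hb)
  have hlead : p.coeff (n + 1) = 1 := by
    rw [hcoeff n]
    have : Q.coeff n = 1 := by rw [← hd]; exact hQ
    rw [this, mul_one, div_self]
    exact Nat.cast_add_one_ne_zero n
  have hdeg : p.natDegree ≤ n + 1 := by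
    rw [Polynomial.natDegree_le_iff_coeff_eq_zero]
    intro N hN
    obtain ⟨M, rfl⟩ : ∃ M, N = M + 1 := ⟨N - 1, by omega⟩
    rw [hcoeff]
    have h0 : Q.coeff M = 0 := by
      apply Polynomial.coeff_eq_zero_of_natDegree_lt
      omega
    rw [h0, mul_zero, zero_div]
  refine ⟨p, Polynomial.monic_of_natDegree_le_of_coeff_eq_one _ hdeg hlead, ?_, ?_⟩
  · refine le_antisymm hdeg ?_
    apply Polynomial.le_natDegree_of_ne_zero
    rw [hlead]; exact one_ne_zero
  · ext i
    rw [Polynomial.coeff_derivative, hcoeff, Polynomial.coeff_C_mul]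
    have : (i : ℂ) + 1 ≠ 0 := Nat.cast_add_one_ne_zero i
    field_simp

/-- Main estimate, polynomial form. -/
theorem main_poly (n : ℕ) (K : Set ℂ) (m : ℕ) (q : Polynomial ℂ)
    (hq : q.Monic) (hqd : q.natDegree = m + 1) (t : ℝ) (ht : 0 < t)
    (hqK : ∀ z ∈ K, ‖q.eval z‖ ≤ t ^ (m + 1)) :
    ∃ p : Polynomial ℂ, p.Monic ∧ p.natDegree = n + 1 ∧
      Real.sqrt (∫ z in K, ‖(Polynomial.derivative p).eval z‖ ^ 2) ≤
        (n + 1) * Real.sqrt (Cst n) * t ^ (n + 1) := by
  -- roots
  have hsplit : q = (q.roots.map (fun a => Polynomial.X - Polynomial.C a)).prod :=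
    (IsAlgClosed.splits q).eq_prod_roots_of_monic hq
  have hcard : Multiset.card q.roots = m + 1 := by
    rw [← hqd]; exact (IsAlgClosed.card_roots_eq_natDegree (p := q))
  set l : List ℂ := q.roots.toList with hl
  have hlen : l.length = m + 1 := by rw [hl, Multiset.length_toList, hcard]
  have heval : ∀ z : ℂ, ‖q.eval z‖ = ∏ i : Fin l.length, ‖z - l.get i‖ := by
    intro z
    have h1 : q.eval z = (l.map (fun a => z - a)).prod := by
      conv_lhs => rw [hsplit]
      rw [Polynomial.eval_multiset_prod, Multiset.map_map]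
      rw [← Multiset.coe_toList q.roots, Multiset.map_coe, Multiset.prod_coe]
      simp [hl]
    rw [h1, ← Fin.prod_univ_fun_getElem l (fun a => z - a), norm_prod]
    simp
  obtain ⟨c, hc⟩ := core (ι := Fin l.length × Fin (n + 1)) (fun x => l.get x.1) Finset.univ n
    (m + 1) (Nat.succ_pos m) (by simp [hlen, mul_comm]) (t ^ (n + 1)) (by positivity)
  obtain ⟨p, hp1, hp2, hp3⟩ := exists_antideriv n (∏ i, (Polynomial.X - Polynomial.C (c i)))
    (Polynomial.monic_prod_of_monic _ _ fun i _ => Polynomial.monic_X_sub_C _)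
    (by rw [Polynomial.natDegree_prod_of_monic _ _ fun i _ => Polynomial.monic_X_sub_C _]; simp)
  refine ⟨p, hp1, hp2, ?_⟩
  have hpe : ∀ z : ℂ, ‖(Polynomial.derivative p).eval z‖ ^ 2
      = ((n : ℝ) + 1) ^ 2 * (∏ i, ‖z - c i‖) ^ 2 := by
    intro z
    rw [hp3, Polynomial.eval_mul, Polynomial.eval_C, Polynomial.eval_prod, norm_mul, norm_prod,
      mul_pow]
    have : ‖(n : ℂ) + 1‖ = (n : ℝ) + 1 := by
      have : ((n : ℂ) + 1) = ((n + 1 : ℕ) : ℂ) := by push_cast; ring
      rw [this, Complex.norm_natCast]; push_cast; ring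
    rw [this]
    simp
  have hKA : K ⊆ {z : ℂ | ∏ j ∈ (Finset.univ : Finset (Fin l.length × Fin (n + 1))),
      ‖z - l.get j.1‖ ≤ (t ^ (n + 1)) ^ (m + 1)} := by
    intro z hz
    simp only [Set.mem_ofPred_eq]
    have : ∏ j : Fin l.length × Fin (n + 1), ‖z - l.get j.1‖ = ‖q.eval z‖ ^ (n + 1) := by
      rw [heval, Fintype.prod_prod_type, ← Finset.prod_pow]
      simp
    rw [this, ← pow_mul, mul_comm (n + 1), pow_mul]
    exact pow_le_pow_left₀ (norm_nonneg _) (hqK z hz) _
  have hint : ∫⁻ z in K, ENNReal.ofReal ((∏ i, ‖z - c i‖) ^ 2) ≤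
      ENNReal.ofReal (Cst n * (t ^ (n + 1)) ^ 2) := (lintegral_mono_set hKA).trans hc
  have hval : ∫ z in K, (∏ i, ‖z - c i‖) ^ 2 ≤ Cst n * (t ^ (n + 1)) ^ 2 := by
    rw [integral_eq_lintegral_of_nonneg_ae (Filter.Eventually.of_forall fun z => by positivity)
      (by fun_prop)]
    exact ENNReal.toReal_le_of_le_ofReal (by have := (Cst_pos n).le; positivity) hint
  rw [show (∫ z in K, ‖(Polynomial.derivative p).eval z‖ ^ 2)
      = ((n : ℝ) + 1) ^ 2 * ∫ z in K, (∏ i, ‖z - c i‖) ^ 2 by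
    rw [← integral_const_mul]; exact integral_congr_ae (Filter.Eventually.of_forall hpe)]
  calc Real.sqrt (((n : ℝ) + 1) ^ 2 * ∫ z in K, (∏ i, ‖z - c i‖) ^ 2)
      ≤ Real.sqrt (((n : ℝ) + 1) ^ 2 * (Cst n * (t ^ (n + 1)) ^ 2)) := by
        apply Real.sqrt_le_sqrt
        exact mul_le_mul_of_nonneg_left hval (by positivity)
    _ = (n + 1) * Real.sqrt (Cst n) * t ^ (n + 1) := by
        rw [Real.sqrt_mul (by positivity), Real.sqrt_sq (by positivity),
          Real.sqrt_mul (Cst_pos n).le, Real.sqrt_sq (by positivity)]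
        ring

theorem final : ∀ n : ℕ, 1 ≤ n → ∃ C : ℝ, 0 < C ∧ ∀ K : Set ℂ, IsCompact K → K.Nonempty →
      C * (⨅ p : {p : Polynomial ℂ // p.Monic ∧ p.natDegree = n},
            Real.sqrt (∫ z in K, ‖(Polynomial.derivative p.1).eval z‖ ^ 2)) ≤
        (⨅ m : ℕ,
            (⨅ q : {q : Polynomial ℂ // q.Monic ∧ q.natDegree = m + 1},
                sSup ((fun z => ‖q.1.eval z‖) '' K)) ^ ((1 : ℝ) / ((m : ℝ) + 1))) ^ n := by
  intro n' hn'
  obtain ⟨n, rfl⟩ : ∃ n, n' = n + 1 := ⟨n' - 1, by omega⟩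
  have hCpos := Cst_pos n
  have hD : 0 < ((n : ℝ) + 1) * Real.sqrt (Cst n) := by positivity
  refine ⟨1 / (((n : ℝ) + 1) * Real.sqrt (Cst n)), by positivity, fun K hK hKne => ?_⟩
  set X : ℝ := ⨅ p : {p : Polynomial ℂ // p.Monic ∧ p.natDegree = n + 1},
            Real.sqrt (∫ z in K, ‖(Polynomial.derivative p.1).eval z‖ ^ 2) with hX
  have hXnn : 0 ≤ X := Real.iInf_nonneg fun p => Real.sqrt_nonneg _
  set Y : ℝ := 1 / (((n : ℝ) + 1) * Real.sqrt (Cst n)) * X with hY
  have hYnn : 0 ≤ Y := by positivity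
  set y : ℝ := Y ^ ((1 : ℝ) / ((n : ℝ) + 1)) with hy
  have hynn : 0 ≤ y := by positivity
  have hyY : y ^ (n + 1) = Y := by
    rw [hy, ← Real.rpow_natCast, ← Real.rpow_mul hYnn]
    push_cast
    rw [one_div_mul_cancel (by positivity), Real.rpow_one]
  have hstep : ∀ (m : ℕ) (q : Polynomial ℂ), q.Monic → q.natDegree = m + 1 → ∀ t : ℝ, 0 < t →
      (∀ z ∈ K, ‖q.eval z‖ ≤ t ^ (m + 1)) → Y ≤ t ^ (n + 1) := by
    intro m q hq hqd t ht hqK
    obtain ⟨p, hp1, hp2, hp3⟩ := main_poly n K m q hq hqd t ht hqK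
    have hXle : X ≤ (n + 1) * Real.sqrt (Cst n) * t ^ (n + 1) := by
      refine le_trans ?_ hp3
      exact ciInf_le (f := fun p : {p : Polynomial ℂ // p.Monic ∧ p.natDegree = n + 1} =>
        Real.sqrt (∫ z in K, ‖(Polynomial.derivative p.1).eval z‖ ^ 2))
        ⟨0, by rintro _ ⟨p, rfl⟩; exact Real.sqrt_nonneg _⟩ ⟨p, hp1, hp2⟩
    rw [hY, one_div, inv_mul_le_iff₀ hD]
    exact hXle
  have hbdd : ∀ (q : Polynomial ℂ), BddAbove ((fun z => ‖q.eval z‖) '' K) := fun q =>
    (hK.image (by fun_prop)).bddAbove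
  have hq : ∀ (m : ℕ) (q : Polynomial ℂ), q.Monic → q.natDegree = m + 1 →
      y ^ (m + 1) ≤ sSup ((fun z => ‖q.eval z‖) '' K) := by
    intro m q hq hqd
    have hs0 : 0 ≤ sSup ((fun z => ‖q.eval z‖) '' K) := by
      apply Real.sSup_nonneg
      rintro _ ⟨z, _, rfl⟩
      exact norm_nonneg _
    refine le_of_forall_pos_le_add fun ε hε => ?_
    set s : ℝ := sSup ((fun z => ‖q.eval z‖) '' K) + ε with hs
    have hspos : 0 < s := by positivity
    set t : ℝ := s ^ ((1 : ℝ) / ((m : ℝ) + 1)) with htdef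
    have htpos : 0 < t := by positivity
    have hts : t ^ (m + 1) = s := by
      rw [htdef, ← Real.rpow_natCast, ← Real.rpow_mul hspos.le]
      push_cast
      rw [one_div_mul_cancel (by positivity), Real.rpow_one]
    have h1 : Y ≤ t ^ (n + 1) := by
      apply hstep m q hq hqd t htpos
      intro z hz
      rw [hts, hs]
      have := le_csSup (hbdd q) ⟨z, hz, rfl⟩
      simp only at this
      linarith
    rw [← hyY] at h1
    have h2 : y ≤ t := le_of_pow_le_pow_left₀ (Nat.succ_ne_zero n) htpos.le h1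
    calc y ^ (m + 1) ≤ t ^ (m + 1) := pow_le_pow_left₀ hynn h2 _
      _ = s := hts
  have hm : ∀ m : ℕ, y ≤ (⨅ q : {q : Polynomial ℂ // q.Monic ∧ q.natDegree = m + 1},
                sSup ((fun z => ‖q.1.eval z‖) '' K)) ^ ((1 : ℝ) / ((m : ℝ) + 1)) := by
    intro m
    have : Nonempty {q : Polynomial ℂ // q.Monic ∧ q.natDegree = m + 1} :=
      ⟨⟨Polynomial.X ^ (m + 1), Polynomial.monic_X_pow _, Polynomial.natDegree_X_pow _⟩⟩
    have h1 : y ^ (m + 1) ≤ (⨅ q : {q : Polynomial ℂ // q.Monic ∧ q.natDegree = m + 1},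
                sSup ((fun z => ‖q.1.eval z‖) '' K)) :=
      le_ciInf fun q => hq m q.1 q.2.1 q.2.2
    calc y = (y ^ (m + 1)) ^ ((1 : ℝ) / ((m : ℝ) + 1)) := by
          rw [← Real.rpow_natCast, ← Real.rpow_mul hynn]
          push_cast
          rw [mul_one_div_cancel (by positivity), Real.rpow_one]
      _ ≤ _ := Real.rpow_le_rpow (by positivity) h1 (by positivity)
  rw [← hyY]
  exact pow_le_pow_left₀ hynn (le_ciInf hm) _

end Pool.Agent.LibWeakCap
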